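import Pool.Agent.X198.RS.Defs

open Set Filter Topology

namespace X198RS

universe u

section basic
variable {T : Type u} [PartialOrder T]

theorem Ray.ext' {R S : Ray T} (h : R.carrier = S.carrier) : R = S := by
  cases R; cases S; simp only at h; subst h; rfl

theorem Ray.total (R : Ray T) {a b : T} (ha : a ∈ R.carrier) (hb : b ∈ R.carrier) :
    a ≤ b ∨ b ≤ a := by
  by_cases hab : a = b
  · exact Or.inl hab.le
  · exact R.chain ha hb hab

/-- rays inside a common ray are comparable -/
theorem Ray.comparable (z x y : Ray T) (hx : x.carrier ⊆ z.carrier) (hy : y.carrier ⊆ z.carrier) :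
    x.carrier ⊆ y.carrier ∨ y.carrier ⊆ x.carrier := by
  by_contra hcon
  push Not at hcon
  obtain ⟨⟨a, ha, hay⟩, ⟨b, hb, hbx⟩⟩ := hcon.imp not_subset.1 not_subset.1
  rcases z.total (hx ha) (hy hb) with h | h
  · exact hay (y.down b hb a h)
  · exact hbx (x.down a ha b h)

theorem clopen_mem (t : T) : IsClopen {R : Ray T | t ∈ R.carrier} := by
  have h0 : Continuous (Ray.code : Ray T → T → Bool) := continuous_induced_dom
  have h1 : Continuous (fun R : Ray T => R.code t) := (continuous_apply t).comp h0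
  have h2 : {R : Ray T | t ∈ R.carrier} = (fun R : Ray T => R.code t) ⁻¹' {true} := by
    ext R
    simp [Ray.code]
  rw [h2]
  exact (isClopen_discrete _).preimage h1

theorem clopen_notMem (t : T) : IsClopen {R : Ray T | t ∉ R.carrier} := (clopen_mem t).compl

theorem continuous_of {X : Type*} [TopologicalSpace X] {f : X → Ray T}
    (h : ∀ t, IsClopen {x | t ∈ (f x).carrier}) : Continuous f := by
  rw [continuous_induced_rng, continuous_pi_iff]
  intro t
  rw [continuous_discrete_rng]
  intro b
  have h1 := h t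
  cases b
  · have : ((fun a => (Ray.code ∘ f) a t) ⁻¹' {false}) = {x | t ∈ (f x).carrier}ᶜ := by
      ext x
      simp [Ray.code]
    rw [this]
    exact h1.compl.isOpen
  · have : ((fun a => (Ray.code ∘ f) a t) ⁻¹' {true}) = {x | t ∈ (f x).carrier} := by
      ext x
      simp [Ray.code]
    rw [this]
    exact h1.isOpen

theorem nbhd_basis {U : Set (Ray T)} (hU : IsOpen U) {x : Ray T} (hx : x ∈ U) :
    ∃ I : Finset T, ∀ y : Ray T, (∀ i ∈ I, (i ∈ y.carrier ↔ i ∈ x.carrier)) → y ∈ U := by
  classical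
  obtain ⟨V, hV, rfl⟩ := isOpen_induced_iff.1 hU
  obtain ⟨I, w, h1, h2⟩ := isOpen_pi_iff.1 hV x.code hx
  refine ⟨I, fun y hy => h2 ?_⟩
  intro i hi
  have h3 : y.code i = x.code i := by
    simp only [Ray.code]
    have := hy i hi
    by_cases hxi : i ∈ x.carrier
    · simp [hxi, this.2 hxi]
    · have h4 : i ∉ y.carrier := fun h5 => hxi (this.1 h5)
      simp [hxi, h4]
  rw [h3]
  exact (h1 i hi).2

theorem IsOrderTree.wf (hT : IsOrderTree T) : WellFounded ((· < ·) : T → T → Prop) := by
  rw [WellFounded.wellFounded_iff_has_min]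
  intro S hS
  obtain ⟨t, ht⟩ := hS
  obtain ⟨m, hm, hm2⟩ := hT.2 t (S ∩ Iic t) inter_subset_right ⟨t, ht, le_refl t⟩
  refine ⟨m, hm.1, fun x hx hxm => ?_⟩
  have := hm2 x ⟨hx, hxm.le.trans hm.2⟩
  exact absurd hxm (not_lt_of_ge this)

end basic

/-- topological sums of quasi-ray spaces -/
theorem sum_lemma {Y : Type u} [TopologicalSpace Y] {I : Type u} (P : I → Set Y)
    (ho : ∀ i, IsOpen (P i)) (hd : ∀ i j, ∀ y, y ∈ P i → y ∈ P j → i = j)
    (hq : ∀ i, IsQuasiRay (P i)) (U : Set Y) (hU : ∀ y, y ∈ U ↔ ∃ i, y ∈ P i) : IsQuasiRay U := by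
  classical
  choose T ord htree f hfc hfb using hq
  letI : ∀ i, PartialOrder (T i) := ord
  -- the lift of rays
  let lift : ∀ i, Ray (T i) → Ray (WithBot (Σ i, T i)) := fun i R =>
    { carrier := {w | w = ⊥ ∨ ∃ a ∈ R.carrier, w = ((⟨i, a⟩ : Σ i, T i) : WithBot (Σ i, T i))}
      nonempty := ⟨⊥, Or.inl rfl⟩
      chain := by
        rintro w (rfl | ⟨a, ha, rfl⟩) w' (rfl | ⟨b, hb, rfl⟩) _
        · exact Or.inl le_rfl
        · exact Or.inl bot_le
        · exact Or.inr bot_le
        · rcases R.total ha hb with h | h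
          · exact Or.inl (WithBot.coe_le_coe.2 (Sigma.le_def.2 ⟨rfl, h⟩))
          · exact Or.inr (WithBot.coe_le_coe.2 (Sigma.le_def.2 ⟨rfl, h⟩))
      down := by
        rintro w (rfl | ⟨a, ha, rfl⟩) w' hw'
        · exact Or.inl (le_bot_iff.1 hw')
        · induction w' using WithBot.recBotCoe with
          | bot => exact Or.inl rfl
          | coe v =>
            obtain ⟨j, b⟩ := v
            rw [WithBot.coe_le_coe, Sigma.le_def] at hw'
            obtain ⟨h1, h2⟩ := hw'
            simp only at h1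
            subst h1
            exact Or.inr ⟨b, R.down a ha b h2, rfl⟩
      noMax := by
        rintro w (rfl | ⟨a, ha, rfl⟩)
        · obtain ⟨a, ha⟩ := R.nonempty
          exact ⟨_, Or.inr ⟨a, ha, rfl⟩, WithBot.bot_lt_coe _⟩
        · obtain ⟨b, hb, hab⟩ := R.noMax a ha
          refine ⟨_, Or.inr ⟨b, hb, rfl⟩, WithBot.coe_lt_coe.2 (Sigma.lt_def.2 ⟨rfl, hab⟩)⟩ }
  have lift_mem : ∀ i (R : Ray (T i)) a,
      ((⟨i, a⟩ : Σ i, T i) : WithBot (Σ i, T i)) ∈ (lift i R).carrier ↔ a ∈ R.carrier := by
    intro i R a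
    constructor
    · rintro (h | ⟨b, hb, h⟩)
      · exact absurd h (WithBot.coe_ne_bot)
      · rw [WithBot.coe_inj] at h
        cases h
        exact hb
    · intro h
      exact Or.inr ⟨a, h, rfl⟩
  have lift_ne : ∀ i j (R : Ray (T i)) (a : T j),
      ((⟨j, a⟩ : Σ i, T i) : WithBot (Σ i, T i)) ∈ (lift i R).carrier → j = i := by
    intro i j R a h
    rcases h with h | ⟨b, hb, h⟩
    · exact absurd h (WithBot.coe_ne_bot)
    · rw [WithBot.coe_inj] at h
      exact congrArg Sigma.fst h
  have hix : ∀ x : U, ∃ i, x.1 ∈ P i := fun x => (hU x.1).1 x.2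
  choose ix hix using hix
  let g : U → Ray (WithBot (Σ i, T i)) := fun x => lift (ix x) (f (ix x) ⟨x.1, hix x⟩)
  have g_eq : ∀ (x : U) (i : I) (h : x.1 ∈ P i), g x = lift i (f i ⟨x.1, h⟩) := by
    intro x i h
    have h1 : ix x = i := hd _ _ _ (hix x) h
    subst h1
    rfl
  refine ⟨WithBot (Σ i, T i), inferInstance, ⟨⟨⊥, fun t => bot_le⟩, ?_⟩, g, ?_, ?_, ?_⟩
  · intro t S hS hne
    by_cases hb : (⊥ : WithBot (Σ i, T i)) ∈ S
    · exact ⟨⊥, hb, fun s _ => bot_le⟩
    · obtain ⟨w, hw⟩ := hne
      induction t using WithBot.recBotCoe with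
      | bot => exact absurd (by rw [← le_bot_iff.1 (hS hw)]; exact hw) hb
      | coe v =>
        obtain ⟨i, a⟩ := v
        have key : ∀ w ∈ S, ∃ b : T i, b ≤ a ∧ w = ((⟨i, b⟩ : Σ i, T i) : WithBot (Σ i, T i)) := by
          intro w hw
          have h1 := hS hw
          induction w using WithBot.recBotCoe with
          | bot => exact absurd hw hb
          | coe v =>
            obtain ⟨j, b⟩ := v
            rw [mem_Iic, WithBot.coe_le_coe, Sigma.le_def] at h1
            obtain ⟨h1, h2⟩ := h1
            simp only at h1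
            subst h1
            exact ⟨b, h2, rfl⟩
        obtain ⟨b, hb1, rfl⟩ := key w hw
        obtain ⟨m, hm, hm2⟩ := (htree i).2 a
          {c | ((⟨i, c⟩ : Σ i, T i) : WithBot (Σ i, T i)) ∈ S} (by
            intro c hc
            obtain ⟨d, hd1, hd2⟩ := key _ hc
            rw [WithBot.coe_inj] at hd2
            cases hd2
            exact hd1) ⟨b, hw⟩
        refine ⟨_, hm, fun s hs => ?_⟩
        obtain ⟨d, hd1, rfl⟩ := key s hs
        exact WithBot.coe_le_coe.2 (Sigma.le_def.2 ⟨rfl, hm2 d hs⟩)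
  · refine continuous_of fun w => ?_
    induction w using WithBot.recBotCoe with
    | bot =>
      have : {x : U | (⊥ : WithBot (Σ i, T i)) ∈ (g x).carrier} = univ := by
        ext x
        simp only [mem_univ, iff_true]
        exact Or.inl rfl
      rw [this]
      exact isClopen_univ
    | coe v =>
      obtain ⟨i, a⟩ := v
      have hO : IsClopen {y : P i | a ∈ (f i y).carrier} := (clopen_mem a).preimage (hfc i)
      have h1 : {x : U | ((⟨i, a⟩ : Σ i, T i) : WithBot (Σ i, T i)) ∈ (g x).carrier} =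
          Subtype.val ⁻¹' (Subtype.val '' {y : P i | a ∈ (f i y).carrier}) := by
        ext x
        constructor
        · intro hx
          have hx' : ((⟨i, a⟩ : Σ i, T i) : WithBot (Σ i, T i)) ∈ (g x).carrier := hx
          have hi : i = ix x := lift_ne _ _ _ _ hx'
          subst hi
          exact ⟨⟨x.1, hix x⟩, (lift_mem _ _ _).1 hx', rfl⟩
        · rintro ⟨y, hy, hyx⟩
          have h2 : x.1 ∈ P i := hyx ▸ y.2
          have h3 := g_eq x i h2
          show ((⟨i, a⟩ : Σ i, T i) : WithBot (Σ i, T i)) ∈ (g x).carrier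
          rw [h3, lift_mem]
          have h4 : (⟨x.1, h2⟩ : P i) = y := Subtype.ext hyx.symm
          rw [h4]
          exact hy
      have h2 : {x : U | ((⟨i, a⟩ : Σ i, T i) : WithBot (Σ i, T i)) ∈ (g x).carrier}ᶜ =
          Subtype.val ⁻¹' ((Subtype.val '' {y : P i | a ∈ (f i y).carrier}ᶜ) ∪
            ⋃ j ∈ {j | j ≠ i}, P j) := by
        rw [h1]
        ext x
        constructor
        · intro hx
          by_cases hxi : x.1 ∈ P i
          · left
            refine ⟨⟨x.1, hxi⟩, fun h3 => hx ⟨⟨x.1, hxi⟩, h3, rfl⟩, rfl⟩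
          · right
            refine mem_biUnion (x := ix x) ?_ (hix x)
            intro h3
            exact hxi (h3 ▸ hix x)
        · rintro (⟨y, hy, hyx⟩ | hx) ⟨y', hy', hyx'⟩
          · have : y = y' := Subtype.ext (hyx.trans hyx'.symm)
            subst this
            exact hy hy'
          · obtain ⟨j, hj, hxj⟩ := mem_iUnion₂.1 hx
            exact hj (hd _ _ _ hxj (hyx' ▸ y'.2))
      constructor
      · rw [← isOpen_compl_iff, h2]
        exact (((ho i).isOpenMap_subtype_val _ hO.compl.isOpen).union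
          (isOpen_biUnion fun j _ => ho j)).preimage continuous_subtype_val
      · rw [h1]
        exact ((ho i).isOpenMap_subtype_val _ hO.isOpen).preimage continuous_subtype_val
  · intro x y hxy
    have hi : ix x = ix y := by
      obtain ⟨a, ha⟩ := (f (ix x) ⟨x.1, hix x⟩).nonempty
      have h1 : ((⟨ix x, a⟩ : Σ i, T i) : WithBot (Σ i, T i)) ∈ (g x).carrier :=
        (lift_mem _ _ _).2 ha
      rw [hxy] at h1
      exact lift_ne _ _ _ _ h1
    have hy : y.1 ∈ P (ix x) := by rw [hi]; exact hix y
    rw [g_eq x (ix x) (hix x), g_eq y (ix x) hy] at hxy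
    have h2 : f (ix x) ⟨x.1, hix x⟩ = f (ix x) ⟨y.1, hy⟩ := by
      apply Ray.ext'
      ext a
      rw [← lift_mem (ix x), ← lift_mem (ix x), hxy]
    have h3 := (hfb (ix x)).1 h2
    have h4 : x.1 = y.1 := congrArg (fun z : P (ix x) => z.1) h3
    exact Subtype.ext h4
  · intro Q
    have hbot : (⊥ : WithBot (Σ i, T i)) ∈ Q.carrier := by
      obtain ⟨w, hw⟩ := Q.nonempty
      exact Q.down w hw ⊥ bot_le
    obtain ⟨w, hw, hbw⟩ := Q.noMax _ hbot
    induction w using WithBot.recBotCoe with
    | bot => exact absurd hbw (lt_irrefl _)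
    | coe v =>
      obtain ⟨i, a⟩ := v
      have key : ∀ w ∈ Q.carrier, w = ⊥ ∨
          ∃ b : T i, w = ((⟨i, b⟩ : Σ i, T i) : WithBot (Σ i, T i)) := by
        intro w' hw'
        induction w' using WithBot.recBotCoe with
        | bot => exact Or.inl rfl
        | coe v =>
          obtain ⟨j, b⟩ := v
          right
          have hji : j = i := by
            rcases Q.total hw' hw with h | h
            · rw [WithBot.coe_le_coe, Sigma.le_def] at h
              exact h.1
            · rw [WithBot.coe_le_coe, Sigma.le_def] at h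
              exact h.1.symm
          subst hji
          exact ⟨b, rfl⟩
      let R : Ray (T i) :=
        { carrier := {b | ((⟨i, b⟩ : Σ i, T i) : WithBot (Σ i, T i)) ∈ Q.carrier}
          nonempty := ⟨a, hw⟩
          chain := by
            intro b hb c hc _
            rcases Q.total hb hc with h | h
            · rw [WithBot.coe_le_coe, Sigma.le_def] at h
              exact Or.inl h.2
            · rw [WithBot.coe_le_coe, Sigma.le_def] at h
              exact Or.inr h.2
          down := by
            intro b hb c hcb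
            exact Q.down _ hb _ (WithBot.coe_le_coe.2 (Sigma.le_def.2 ⟨rfl, hcb⟩))
          noMax := by
            intro b hb
            obtain ⟨w', hw', hlt⟩ := Q.noMax _ hb
            rcases key w' hw' with rfl | ⟨c, rfl⟩
            · exact absurd hlt (not_lt_bot)
            · rw [WithBot.coe_lt_coe, Sigma.lt_def] at hlt
              exact ⟨c, hw', hlt.2⟩ }
      obtain ⟨y, hy⟩ := (hfb i).2 R
      have hyU : y.1 ∈ U := (hU y.1).2 ⟨i, y.2⟩
      refine ⟨⟨y.1, hyU⟩, ?_⟩
      rw [g_eq ⟨y.1, hyU⟩ i y.2]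
      have : (⟨(⟨y.1, hyU⟩ : U).1, y.2⟩ : P i) = y := rfl
      rw [this, hy]
      apply Ray.ext'
      ext w'
      constructor
      · rintro (rfl | ⟨b, hb, rfl⟩)
        · exact hbot
        · exact hb
      · intro hw'
        rcases key w' hw' with rfl | ⟨c, rfl⟩
        · exact Or.inl rfl
        · exact Or.inr ⟨c, hw', rfl⟩

end X198RS
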