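import Mathlib

open Set Filter Topology

namespace X198RS

universe u

/-- An order tree: a partially ordered set with a least element in which every set
`{s | s ≤ t}` is well-ordered (each nonempty subset of it has a least element). -/
def IsOrderTree (T : Type u) [PartialOrder T] : Prop :=
  (∃ r : T, ∀ t, r ≤ t) ∧
    ∀ t : T, ∀ S : Set T, S ⊆ Iic t → S.Nonempty → ∃ m ∈ S, ∀ s ∈ S, m ≤ s

/-- A ray of `T`: a nonempty chain that is closed downwards and has no maximal element. -/
structure Ray (T : Type u) [PartialOrder T] where
  carrier : Set T
  nonempty : carrier.Nonempty
  chain : IsChain (· ≤ ·) carrier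
  down : ∀ a ∈ carrier, ∀ b, b ≤ a → b ∈ carrier
  noMax : ∀ a ∈ carrier, ∃ b ∈ carrier, a < b

open Classical in
/-- The characteristic function of a ray, a point of the Cantor cube `2^T`. -/
noncomputable def Ray.code {T : Type u} [PartialOrder T] (R : Ray T) : T → Bool :=
  fun t => decide (t ∈ R.carrier)

/-- The ray space of `T`: the set of rays with the subspace topology of the Cantor cube `2^T`
(product topology, `Bool` discrete). -/
noncomputable instance rayTopology (T : Type u) [PartialOrder T] : TopologicalSpace (Ray T) :=
  TopologicalSpace.induced Ray.code inferInstance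

/-- `X` is a quasi-ray space: there is a continuous bijection from `X` onto the ray space of an
order tree. -/
def IsQuasiRay (X : Type u) [TopologicalSpace X] : Prop :=
  ∃ (T : Type u) (_ : PartialOrder T), IsOrderTree T ∧
    ∃ f : X → Ray T, Continuous f ∧ Function.Bijective f

end X198RS
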