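import Pool.Agent.X198.RS.Piece

open Set Filter Topology

namespace X198RS

universe u

variable {T : Type u} [PartialOrder T]

theorem star (_hT : IsOrderTree T) {U : Set (Ray T)} (hU : IsOpen U) {x : Ray T} (hx : x ∈ U) :
    ∃ t ∈ x.carrier, ∀ z : Ray T, z ∉ U → t ∈ z.carrier → x.carrier ⊆ z.carrier := by
  classical
  obtain ⟨I, hI⟩ := nbhd_basis hU hx
  have key : ∀ J : Finset T, ∃ t ∈ x.carrier, ∀ i ∈ J, (i ∈ x.carrier → i ≤ t) ∧
      ((∃ u ∈ x.carrier, ¬ u ≤ i) → ¬ t ≤ i) := by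
    intro J
    induction J using Finset.induction_on with
    | empty =>
      obtain ⟨t, ht⟩ := x.nonempty
      exact ⟨t, ht, fun i hi => absurd hi (Finset.notMem_empty i)⟩
    | insert j J hj ih =>
      obtain ⟨t, ht, hJ⟩ := ih
      -- raise `t` to handle `j`
      have h1 : ∃ t1 ∈ x.carrier, t ≤ t1 ∧ (j ∈ x.carrier → j ≤ t1) := by
        by_cases hjx : j ∈ x.carrier
        · rcases x.total ht hjx with h | h
          · exact ⟨j, hjx, h, fun _ => le_rfl⟩
          · exact ⟨t, ht, le_rfl, fun _ => h⟩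
        · exact ⟨t, ht, le_rfl, fun h => absurd h hjx⟩
      obtain ⟨t1, ht1, htt1, hj1⟩ := h1
      have h2 : ∃ t2 ∈ x.carrier, t1 ≤ t2 ∧ ((∃ u ∈ x.carrier, ¬ u ≤ j) → ¬ t2 ≤ j) := by
        by_cases hu : ∃ u ∈ x.carrier, ¬ u ≤ j
        · obtain ⟨u, hu, huj⟩ := hu
          rcases x.total ht1 hu with h | h
          · exact ⟨u, hu, h, fun _ => huj⟩
          · exact ⟨t1, ht1, le_rfl, fun _ h3 => huj (h.trans h3)⟩
        · exact ⟨t1, ht1, le_rfl, fun h => absurd h hu⟩
      obtain ⟨t2, ht2, ht12, hj2⟩ := h2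
      refine ⟨t2, ht2, fun i hi => ?_⟩
      rcases Finset.mem_insert.1 hi with rfl | hi
      · exact ⟨fun h => (hj1 h).trans ht12, hj2⟩
      · exact ⟨fun h => (((hJ i hi).1 h).trans htt1).trans ht12,
          fun h h3 => (hJ i hi).2 h ((htt1.trans ht12).trans h3)⟩
  obtain ⟨t, ht, htI⟩ := key I
  refine ⟨t, ht, fun z hz htz => ?_⟩
  have h1 : ¬ ∀ i ∈ I, (i ∈ z.carrier ↔ i ∈ x.carrier) := fun h => hz (hI z h)
  push Not at h1
  obtain ⟨i, hi, h2⟩ := h1
  have hiz : i ∈ z.carrier ∧ i ∉ x.carrier := by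
    rcases h2 with h2 | h2
    · exact h2
    · exact absurd (z.down _ htz _ ((htI i hi).1 h2.2)) h2.1
  have h3 : ¬ ∃ u ∈ x.carrier, ¬ u ≤ i := by
    intro h4
    have h5 := (htI i hi).2 h4
    rcases z.total htz hiz.1 with h | h
    · exact h5 h
    · exact hiz.2 (x.down _ ht _ h)
  push Not at h3
  exact fun u hu => z.down _ hiz.1 _ (h3 u hu)

/-- open subspaces of ray spaces are quasi-ray spaces -/
theorem open_quasiRay (hT : IsOrderTree T) (U : Set (Ray T)) (hU : IsOpen U) : IsQuasiRay U := by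
  classical
  set TZ : T → Prop := fun u => ∃ z : Ray T, z ∉ U ∧ u ∈ z.carrier with hTZ
  have TZdown : ∀ u v, TZ u → v ≤ u → TZ v := fun u v ⟨z, hz, huz⟩ h => ⟨z, hz, z.down _ huz _ h⟩
  set good : Ray T → T → Prop := fun x t => t ∈ x.carrier ∧
    ∀ z : Ray T, z ∉ U → t ∈ z.carrier → x.carrier ⊆ z.carrier with hgood
  set st : Ray T → T → Prop := fun x t => good x t ∧ ∀ t', good x t' → t ≤ t' with hst
  have stex : ∀ x ∈ U, ∃ t, st x t := by
    intro x hx
    obtain ⟨t0, ht0, ht0'⟩ := star hT hU hx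
    obtain ⟨t, ht, htm⟩ := hT.wf.has_min {t | good x t} ⟨t0, ht0, ht0'⟩
    refine ⟨t, ht, fun t' ht' => ?_⟩
    rcases x.total ht.1 ht'.1 with h | h
    · exact h
    · rcases h.lt_or_eq with h' | h'
      · exact absurd h' (htm t' ht')
      · exact h'.ge
  have L1 : ∀ x y : Ray T, x.carrier ⊆ y.carrier → ∀ a b, st x a → st y b → b ∈ x.carrier → a = b := by
    intro x y hxy a b ha hb hbx
    apply le_antisymm
    · exact ha.2 b ⟨hbx, fun z hz hbz => hxy.trans (hb.1.2 z hz hbz)⟩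
    · exact hb.2 a ⟨hxy ha.1.1, fun z hz haz => hb.1.2 z hz (ha.1.2 z hz haz hbx)⟩
  set E : T → Ray T → Prop := fun t x => x ∈ U ∧ (∀ u ∈ x.carrier, TZ u) ∧ st x t with hE
  have Ecomp : ∀ t x y, E t x → E t y → x.carrier ⊆ y.carrier ∨ y.carrier ⊆ x.carrier := by
    intro t x y hx hy
    obtain ⟨z, hz, htz⟩ := hx.2.1 t hx.2.2.1.1
    exact Ray.comparable z x y (hx.2.2.1.2 z hz htz) (hy.2.2.1.2 z hz htz)
  -- the union ray
  let RS : ∀ t : T, (∃ x, E t x) → Ray T := fun t ht =>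
    { carrier := {u | ∃ x, E t x ∧ u ∈ x.carrier}
      nonempty := by
        obtain ⟨x, hx⟩ := ht
        exact ⟨t, x, hx, hx.2.2.1.1⟩
      chain := by
        rintro a ⟨x, hx, hax⟩ b ⟨y, hy, hby⟩ _
        rcases Ecomp t x y hx hy with h | h
        · exact y.total (h hax) hby
        · exact x.total hax (h hby)
      down := by
        rintro a ⟨x, hx, hax⟩ b hb
        exact ⟨x, hx, x.down _ hax _ hb⟩
      noMax := by
        rintro a ⟨x, hx, hax⟩
        obtain ⟨b, hb, hab⟩ := x.noMax a hax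
        exact ⟨b, ⟨x, hx, hb⟩, hab⟩ }
  have L3 : ∀ t ht z, z ∉ U → t ∈ z.carrier → (RS t ht).carrier ⊆ z.carrier := by
    rintro t ht z hz htz u ⟨x, hx, hux⟩
    exact hx.2.2.1.2 z hz htz hux
  have htRS : ∀ t ht, t ∈ (RS t ht).carrier := by
    intro t ht
    obtain ⟨x, hx⟩ := ht
    exact ⟨x, hx, hx.2.2.1.1⟩
  have startTZ : ∀ t, (∃ x, E t x) → TZ t := fun t ⟨x, hx⟩ => hx.2.1 t hx.2.2.1.1
  set Ss : T → Set T := fun t => {s | TZ s ∧ ∀ r, (∃ x, E t x ∧ r ∈ x.carrier) → r < s} with hSs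
  set B : T → Set (Ray T) := fun t => {R | R ∈ U ∧ t ∈ R.carrier ∧ ∀ s ∈ Ss t, s ∉ R.carrier} with hB
  have LG : ∀ t ht (R : Ray T), t ∈ R.carrier → (∀ s ∈ Ss t, s ∉ R.carrier) → R ∉ U →
      R = RS t ht := by
    intro t ht R htR hR hRU
    have h1 := L3 t ht R hRU htR
    apply Ray.ext'
    refine Subset.antisymm (fun s hs => ?_) h1
    by_contra hc
    refine hR s ⟨⟨R, hRU, hs⟩, fun r hr => ?_⟩ hs
    have hrR : r ∈ R.carrier := h1 hr
    rcases R.total hrR hs with h | h
    · refine lt_of_le_of_ne h ?_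
      rintro rfl
      exact hc hr
    · exact absurd ((RS t ht).down _ hr _ h) hc
  have Bq : ∀ t, (∃ x, E t x) → IsQuasiRay (B t) := by
    intro t ht
    by_cases hR : RS t ht ∈ U
    · have : B t = {R : Ray T | t ∈ R.carrier ∧ ∀ s ∈ Ss t, s ∉ R.carrier} := by
        ext R
        constructor
        · exact fun h => h.2
        · intro h
          refine ⟨?_, h⟩
          by_contra hc
          exact hc ((LG t ht R h.1 h.2 hc) ▸ hR)
      rw [this]
      exact piece1 hT t _ (fun s hs hst => absurd (hs.2 t (htRS t ht)) (not_lt_of_ge hst))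
    · have : B t = {R : Ray T | (t ∈ R.carrier ∧ ∀ s ∈ Ss t, s ∉ R.carrier) ∧ R ≠ RS t ht} := by
        ext R
        constructor
        · intro h
          refine ⟨h.2, ?_⟩
          rintro rfl
          exact hR h.1
        · intro h
          refine ⟨?_, h.1⟩
          by_contra hc
          exact h.2 (LG t ht R h.1.1 h.1.2 hc)
      rw [this]
      obtain ⟨x, hx⟩ := id ht
      refine piece2 hT (RS t ht) (htRS t ht) _ (fun s hs r hr => hs.2 r hr) x
        (fun u hu => ⟨x, hx, hu⟩) ?_ hx.2.2.1.1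
      intro h
      have : x = RS t ht := Ray.ext' (Subset.antisymm (fun u hu => ⟨x, hx, hu⟩) h)
      exact hR (this ▸ hx.1)
  have Bo : ∀ t, (∃ x, E t x) → IsOpen (B t) := by
    intro t ht
    rw [isOpen_iff_mem_nhds]
    rintro y ⟨hyU, hty, hy⟩
    have hbase : ∀ N : Set (Ray T), IsOpen N → y ∈ N →
        (∀ R ∈ N, R ∈ U → t ∈ R.carrier → ∀ s ∈ Ss t, s ∉ R.carrier) → B t ∈ 𝓝 y := by
      intro N hN hyN h
      filter_upwards [hN.mem_nhds hyN, hU.mem_nhds hyU, (clopen_mem t).isOpen.mem_nhds hty]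
        with R h1 h2 h3
      exact ⟨h2, h3, h R h1 h2 h3⟩
    by_cases h1 : (RS t ht).carrier ⊆ y.carrier
    · by_cases h2 : y.carrier ⊆ (RS t ht).carrier
      · have hyR : y = RS t ht := Ray.ext' (Subset.antisymm h2 h1)
        obtain ⟨I, hI⟩ := nbhd_basis hU hyU
        have hm : ∀ i : T, i ∉ y.carrier → ∃ m, m ≤ i ∧ m ∉ y.carrier ∧
            ∀ u, u ≤ i → u ∉ y.carrier → m ≤ u := by
          intro i hi
          obtain ⟨m, hm, hm2⟩ := hT.2 i {u | u ≤ i ∧ u ∉ y.carrier} (fun u hu => hu.1)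
            ⟨i, le_rfl, hi⟩
          exact ⟨m, hm.1, hm.2, fun u h3 h4 => hm2 u ⟨h3, h4⟩⟩
        choose! m hm1 hm2 hm3 using hm
        refine hbase (⋂ i ∈ I, {R | i ∉ y.carrier → m i ∉ R.carrier}) ?_ ?_ ?_
        · refine isOpen_biInter_finset fun i _ => ?_
          by_cases hi : i ∈ y.carrier
          · have : {R : Ray T | i ∉ y.carrier → m i ∉ R.carrier} = univ := by
              ext R; simp [hi]
            rw [this]; exact isOpen_univ
          · have : {R : Ray T | i ∉ y.carrier → m i ∉ R.carrier} = {R | m i ∉ R.carrier} := by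
              ext R; simp [hi]
            rw [this]; exact (clopen_notMem _).isOpen
        · simp only [mem_iInter]
          intro i _ hi
          exact hm2 i hi
        · intro R hR _ _ s hs hsR
          obtain ⟨⟨z, hz, hsz⟩, hs2⟩ := hs
          have hyz : y.carrier ⊆ z.carrier := by
            intro r hr
            exact z.down _ hsz _ (hs2 r (h2 hr)).le
          have h3 : ¬ ∀ i ∈ I, (i ∈ z.carrier ↔ i ∈ y.carrier) := fun h => hz (hI z h)
          push Not at h3
          obtain ⟨i, hi, h4⟩ := h3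
          have hiz : i ∈ z.carrier ∧ i ∉ y.carrier := by
            rcases h4 with h4 | h4
            · exact h4
            · exact absurd (hyz h4.2) h4.1
          have hsy : s ∉ y.carrier := fun h5 => lt_irrefl _ (hs2 s (h2 h5))
          have h5 : m i ≤ s := by
            rcases z.total hsz hiz.1 with h | h
            · exact hm3 i hiz.2 s h hsy
            · exact (hm1 i hiz.2).trans h
          simp only [mem_iInter] at hR
          exact hR i hi hiz.2 (R.down _ hsR _ h5)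
      · obtain ⟨s, hs, hsR⟩ := not_subset.1 h2
        have hlt : ∀ r, (∃ x, E t x ∧ r ∈ x.carrier) → r < s := by
          intro r hr
          rcases y.total (h1 hr) hs with h | h
          · refine lt_of_le_of_ne h ?_
            rintro rfl
            exact hsR hr
          · exact absurd ((RS t ht).down _ hr _ h) hsR
        have hsTZ : ¬ TZ s := fun h => hy s ⟨h, hlt⟩ hs
        refine hbase {R | s ∈ R.carrier} (clopen_mem s).isOpen hs ?_
        intro R hR _ _ s' hs' hs'R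
        rcases R.total hR hs'R with h | h
        · exact hsTZ (TZdown _ _ hs'.1 h)
        · exact hy s' hs' (y.down _ hs _ h)
    · obtain ⟨r, hr, hry⟩ := not_subset.1 h1
      refine hbase {R | r ∉ R.carrier} (clopen_notMem r).isOpen hry ?_
      intro R hR _ _ s hs hsR
      exact hR (R.down _ hsR _ (hs.2 r hr).le)
  have L5 : ∀ t x, E t x → x ∈ B t := by
    intro t x hx
    exact ⟨hx.1, hx.2.2.1.1, fun s hs hsx => lt_irrefl _ (hs.2 s ⟨x, hx, hsx⟩)⟩
  have L6' : ∀ t t', (∃ x, E t x) → (∃ x, E t' x) → ∀ y, y ∈ B t → y ∈ B t' → t ≤ t' → t = t' := by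
    intro t t' ht ht' y hy hy' hle
    by_contra hne
    obtain ⟨x', hx'⟩ := id ht'
    obtain ⟨z, hz, htz'⟩ := startTZ t' ht'
    have htz : t ∈ z.carrier := z.down _ htz' _ hle
    have h1 := L3 t ht z hz htz
    by_cases hc : t' ∈ (RS t ht).carrier
    · obtain ⟨x, hx, hxt'⟩ := hc
      have hxz : x.carrier ⊆ z.carrier := hx.2.2.1.2 z hz htz
      have hxz' : x'.carrier ⊆ z.carrier := hx'.2.2.1.2 z hz htz'
      rcases Ray.comparable z x x' hxz hxz' with h | h
      · exact hne (L1 x x' h t t' hx.2.2 hx'.2.2 hxt')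
      · exact hne (L1 x' x h t' t hx'.2.2 hx.2.2 (x'.down _ hx'.2.2.1.1 _ hle)).symm
    · refine hy.2.2 t' ⟨startTZ t' ht', fun r hr => ?_⟩ hy'.2.1
      rcases z.total (h1 hr) htz' with h | h
      · refine lt_of_le_of_ne h ?_
        rintro rfl
        exact hc hr
      · exact absurd ((RS t ht).down _ hr _ h) hc
  have L6 : ∀ t t', (∃ x, E t x) → (∃ x, E t' x) → ∀ y, y ∈ B t → y ∈ B t' → t = t' := by
    intro t t' ht ht' y hy hy'
    rcases y.total hy.2.1 hy'.2.1 with h | h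
    · exact L6' t t' ht ht' y hy hy' h
    · exact (L6' t' t ht' ht y hy' hy h).symm
  have L7 : ∀ t, (∃ x, E t x) → ∀ s, ¬ TZ s → ∀ y ∈ B t, s ∈ y.carrier → ∀ y' : Ray T,
      s ∈ y'.carrier → y' ∈ B t := by
    intro t ht s hs y hy hsy y' hsy'
    refine ⟨?_, ?_, ?_⟩
    · by_contra hc
      exact hs ⟨y', hc, hsy'⟩
    · rcases y.total hy.2.1 hsy with h | h
      · exact y'.down _ hsy' _ h
      · exact absurd (TZdown _ _ (startTZ t ht) h) hs
    · intro s' hs' hs'y'
      rcases y'.total hsy' hs'y' with h | h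
      · exact hs (TZdown _ _ hs'.1 h)
      · exact hy.2.2 s' hs' (y.down _ hsy _ h)
  set M : T → Prop := fun s => ¬ TZ s ∧ (∀ u, u < s → TZ u) ∧
    ∀ t, (∃ x, E t x) → ∀ y ∈ B t, s ∉ y.carrier with hM
  let P : {i : T // (∃ x, E i x) ∨ M i} → Set (Ray T) := fun i =>
    if ∃ x, E i.1 x then B i.1 else {R | i.1 ∈ R.carrier}
  have P1 : ∀ i : {i : T // (∃ x, E i x) ∨ M i}, (∃ x, E i.1 x) → P i = B i.1 := fun i h => if_pos h
  have P2 : ∀ i : {i : T // (∃ x, E i x) ∨ M i}, ¬ (∃ x, E i.1 x) → P i = {R | i.1 ∈ R.carrier} :=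
    fun i h => if_neg h
  refine sum_lemma P ?_ ?_ ?_ U ?_
  · intro i
    by_cases h : ∃ x, E i.1 x
    · rw [P1 i h]; exact Bo i.1 h
    · rw [P2 i h]; exact (clopen_mem _).isOpen
  · intro i j y hi hj
    apply Subtype.ext
    by_cases h : ∃ x, E i.1 x
    · rw [P1 i h] at hi
      by_cases h' : ∃ x, E j.1 x
      · rw [P1 j h'] at hj
        exact L6 _ _ h h' y hi hj
      · rw [P2 j h'] at hj
        exact absurd hj ((j.2.resolve_left h').2.2 i.1 h y hi)
    · rw [P2 i h] at hi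
      by_cases h' : ∃ x, E j.1 x
      · rw [P1 j h'] at hj
        exact absurd hi ((i.2.resolve_left h).2.2 j.1 h' y hj)
      · rw [P2 j h'] at hj
        have hMi := i.2.resolve_left h
        have hMj := j.2.resolve_left h'
        rcases y.total hi hj with h1 | h1
        · rcases h1.lt_or_eq with h2 | h2
          · exact absurd (hMj.2.1 _ h2) hMi.1
          · exact h2
        · rcases h1.lt_or_eq with h2 | h2
          · exact absurd (hMi.2.1 _ h2) hMj.1
          · exact h2.symm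
  · intro i
    by_cases h : ∃ x, E i.1 x
    · rw [P1 i h]; exact Bq i.1 h
    · rw [P2 i h]
      have : {R : Ray T | i.1 ∈ R.carrier} =
          {R : Ray T | i.1 ∈ R.carrier ∧ ∀ s ∈ (∅ : Set T), s ∉ R.carrier} := by
        ext R
        simp
      rw [this]
      exact piece1 hT i.1 ∅ (fun s hs => absurd hs (by simp))
  · intro y
    constructor
    · intro hy
      by_cases hall : ∀ u ∈ y.carrier, TZ u
      · obtain ⟨t, ht⟩ := stex y hy
        have hE' : E t y := ⟨hy, hall, ht⟩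
        refine ⟨⟨t, Or.inl ⟨y, hE'⟩⟩, ?_⟩
        rw [P1 _ ⟨y, hE'⟩]
        exact L5 t y hE'
      · push Not at hall
        obtain ⟨u, hu, huTZ⟩ := hall
        obtain ⟨s, ⟨hs, hsTZ⟩, hsm⟩ := hT.wf.has_min {s | s ∈ y.carrier ∧ ¬ TZ s} ⟨u, hu, huTZ⟩
        by_cases hB' : ∃ t, (∃ x, E t x) ∧ ∃ y' ∈ B t, s ∈ y'.carrier
        · obtain ⟨t, ht, y', hy', hsy'⟩ := hB'
          refine ⟨⟨t, Or.inl ht⟩, ?_⟩
          rw [P1 _ ht]
          exact L7 t ht s hsTZ y' hy' hsy' y hs
        · have hMs : M s := by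
            refine ⟨hsTZ, fun v hv => ?_, fun t ht y' hy' hsy' => hB' ⟨t, ht, y', hy', hsy'⟩⟩
            by_contra hc
            exact hsm v ⟨y.down _ hs _ hv.le, hc⟩ hv
          refine ⟨⟨s, Or.inr hMs⟩, ?_⟩
          have hns : ¬ ∃ x, E s x := fun h => hsTZ (startTZ s h)
          rw [P2 _ hns]
          exact hs
    · rintro ⟨i, hi⟩
      by_cases h : ∃ x, E i.1 x
      · rw [P1 i h] at hi
        exact hi.1
      · rw [P2 i h] at hi
        by_contra hc
        exact (i.2.resolve_left h).1 ⟨y, hc, hi⟩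

end X198RS
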