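import Pool.Agent.X198.RS.Basic

open Set Filter Topology

namespace X198RS

universe u

variable {T : Type u} [PartialOrder T]

theorem IsOrderTree.comp (hT : IsOrderTree T) {a b c : T} (ha : a ≤ c) (hb : b ≤ c) :
    a ≤ b ∨ b ≤ a := by
  obtain ⟨m, hm, hm2⟩ := hT.2 c {a, b} (by
    rintro x (rfl | rfl)
    · exact ha
    · exact hb) ⟨a, Or.inl rfl⟩
  rcases hm with rfl | rfl
  · exact Or.inl (hm2 b (Or.inr rfl))
  · exact Or.inr (hm2 a (Or.inl rfl))

/-- the full pieces are ray spaces -/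
theorem piece1 (hT : IsOrderTree T) (t : T) (S : Set T) (hS : ∀ s ∈ S, ¬ s ≤ t) :
    IsQuasiRay ({R : Ray T | t ∈ R.carrier ∧ ∀ s ∈ S, s ∉ R.carrier} : Set (Ray T)) := by
  have hN : ∀ (R : Ray T), (t ∈ R.carrier ∧ ∀ s ∈ S, s ∉ R.carrier) → ∀ u ∈ R.carrier, t ≤ u →
      (t ≤ u ∧ ∀ s ∈ S, ¬ s ≤ u) := fun R hR u hu htu =>
    ⟨htu, fun s hs hsu => hR.2 s hs (R.down u hu s hsu)⟩
  refine ⟨{u : T // t ≤ u ∧ ∀ s ∈ S, ¬ s ≤ u}, inferInstance,
    ⟨⟨⟨t, le_rfl, hS⟩, fun v => v.2.1⟩, ?_⟩, fun R =>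
    { carrier := {u | u.1 ∈ R.1.carrier}
      nonempty := ⟨⟨t, le_rfl, hS⟩, R.2.1⟩
      chain := by
        intro a ha b hb _
        exact R.1.total ha hb
      down := fun a ha b hb => R.1.down a.1 ha b.1 hb
      noMax := by
        intro a ha
        obtain ⟨b, hb, hab⟩ := R.1.noMax a.1 ha
        exact ⟨⟨b, hN R.1 R.2 b hb (a.2.1.trans hab.le)⟩, hb, hab⟩ }, ?_, ?_, ?_⟩
  · intro v A hA hne
    obtain ⟨m, ⟨m', hm', rfl⟩, hm2⟩ := hT.2 v.1 (Subtype.val '' A) (by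
      rintro _ ⟨a, ha, rfl⟩
      exact hA ha) (hne.image _)
    exact ⟨m', hm', fun s hs => hm2 s.1 ⟨s, hs, rfl⟩⟩
  · refine continuous_of fun u => ?_
    exact (clopen_mem u.1).preimage continuous_subtype_val
  · intro R1 R2 h12
    have h : ∀ R1 R2 : {R : Ray T | t ∈ R.carrier ∧ ∀ s ∈ S, s ∉ R.carrier},
        ({u : {u : T // t ≤ u ∧ ∀ s ∈ S, ¬ s ≤ u} | u.1 ∈ R1.1.carrier} ⊆
        {u | u.1 ∈ R2.1.carrier}) → R1.1.carrier ⊆ R2.1.carrier := by
      intro R1 R2 h u hu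
      rcases R1.1.total hu R1.2.1 with h1 | h1
      · exact R2.1.down t R2.2.1 u h1
      · exact h (show (⟨u, hN R1.1 R1.2 u hu h1⟩ : {u : T // t ≤ u ∧ ∀ s ∈ S, ¬ s ≤ u}) ∈ _ from hu)
    have h3 := congrArg Ray.carrier h12
    simp only at h3
    apply Subtype.ext
    apply Ray.ext'
    exact Subset.antisymm (h R1 R2 h3.subset) (h R2 R1 h3.symm.subset)
  · intro Q
    have hup : ∀ v ∈ Q.carrier, ∃ w ∈ Q.carrier, v.1 < w.1 := fun v hv => by
      obtain ⟨w, hw, hvw⟩ := Q.noMax v hv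
      exact ⟨w, hw, hvw⟩
    let R : Ray T :=
      { carrier := {u | ∃ v ∈ Q.carrier, u ≤ v.1}
        nonempty := by
          obtain ⟨v, hv⟩ := Q.nonempty
          exact ⟨v.1, v, hv, le_rfl⟩
        chain := by
          rintro a ⟨v, hv, hav⟩ b ⟨w, hw, hbw⟩ _
          rcases Q.total hv hw with h | h
          · exact hT.comp (hav.trans h) hbw
          · exact hT.comp hav (hbw.trans h)
        down := by
          rintro a ⟨v, hv, hav⟩ b hb
          exact ⟨v, hv, hb.trans hav⟩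
        noMax := by
          rintro a ⟨v, hv, hav⟩
          obtain ⟨w, hw, hvw⟩ := hup v hv
          exact ⟨w.1, ⟨w, hw, le_rfl⟩, hav.trans_lt hvw⟩ }
    refine ⟨⟨R, ?_, ?_⟩, ?_⟩
    · obtain ⟨v, hv⟩ := Q.nonempty
      exact ⟨v, hv, v.2.1⟩
    · rintro s hs ⟨v, hv, hsv⟩
      exact v.2.2 s hs hsv
    · apply Ray.ext'
      ext u
      constructor
      · rintro ⟨v, hv, huv⟩
        exact Q.down v hv u huv
      · intro hu
        exact ⟨u, hu, le_rfl⟩

/-- wrapper -/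
structure Nd (N : Set T) where
  val : T
  mem : val ∈ N

theorem Nd.ext' {N : Set T} {a b : Nd N} (h : a.val = b.val) : a = b := by
  cases a; cases b; simp only at h; subst h; rfl

/-- removing one ray that has a ray properly below it -/
theorem piece2 (hT : IsOrderTree T) (R0 : Ray T) {t : T} (ht : t ∈ R0.carrier) (S : Set T)
    (hS : ∀ s ∈ S, ∀ r ∈ R0.carrier, r < s) (x : Ray T) (hx : x.carrier ⊆ R0.carrier)
    (hxne : ¬ R0.carrier ⊆ x.carrier) (htx : t ∈ x.carrier) :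
    IsQuasiRay ({R : Ray T | (t ∈ R.carrier ∧ ∀ s ∈ S, s ∉ R.carrier) ∧ R ≠ R0} : Set (Ray T)) := by
  classical
  -- the sequence
  have step : ∀ a : {u // u ∈ x.carrier}, ∃ b : {u // u ∈ x.carrier}, a.1 < b.1 := fun a => by
    obtain ⟨b, hb, hab⟩ := x.noMax a.1 a.2
    exact ⟨⟨b, hb⟩, hab⟩
  choose g hg using step
  set σ : ℕ → {u // u ∈ x.carrier} := fun n => g^[n] ⟨t, htx⟩ with hσ
  have hσ1 : ∀ n, σ (n + 1) = g (σ n) := fun n => by simp only [hσ, Function.iterate_succ_apply']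
  set τ : ℕ → T := fun n => (σ n).1 with hτ
  have hτ0 : τ 0 = t := rfl
  have hτx : ∀ n, τ n ∈ x.carrier := fun n => (σ n).2
  have hτm : StrictMono τ := strictMono_nat_of_lt_succ fun n => by
    simp only [hτ]; rw [hσ1]; exact hg _
  have hτt : ∀ n, t ≤ τ n := fun n => hτ0 ▸ hτm.monotone (Nat.zero_le n)
  have hpx : ∀ u, (∃ n, u ≤ τ n) → u ∈ x.carrier := fun u ⟨n, hn⟩ => x.down _ (hτx n) _ hn
  obtain ⟨tω, ⟨htω, htωp⟩, htωm⟩ := hT.wf.has_min {u | u ∈ R0.carrier ∧ ¬ ∃ n, u ≤ τ n} (by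
    obtain ⟨w, hw, hwx⟩ := not_subset.1 hxne
    exact ⟨w, hw, fun h => hwx (hpx w h)⟩)
  have hωle : ∀ u ∈ R0.carrier, (¬ ∃ n, u ≤ τ n) → tω ≤ u := by
    intro u hu hup
    rcases R0.total htω hu with h | h
    · exact h
    · rcases h.lt_or_eq with h' | h'
      · exact absurd h' (htωm u ⟨hu, hup⟩)
      · exact h'.ge
  have hτω : ∀ n, τ n < tω := by
    intro n
    rcases R0.total (hx (hτx n)) htω with h | h
    · refine lt_of_le_of_ne h ?_
      intro h2
      exact htωp ⟨n, h2.ge⟩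
    · exact absurd ⟨n, h⟩ htωp
  have htltω : t < tω := hτ0 ▸ hτω 0
  set N : Set T := {u | t ≤ u ∧ ∀ s ∈ S, ¬ s ≤ u} with hN
  have hN0 : ∀ u ∈ R0.carrier, t ≤ u → u ∈ N := fun u hu htu =>
    ⟨htu, fun s hs hsu => absurd (hS s hs u hu) (not_lt_of_ge hsu)⟩
  have htωN : tω ∈ N := hN0 tω htω htltω.le
  have hNR : ∀ (R : Ray T), (t ∈ R.carrier ∧ ∀ s ∈ S, s ∉ R.carrier) → ∀ u ∈ R.carrier, t ≤ u →
      u ∈ N := fun R hR u hu htu =>
    ⟨htu, fun s hs hsu => hR.2 s hs (R.down u hu s hsu)⟩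
  -- the new order
  let le : T → T → Prop := fun a b => (tω ≤ a ∧ a ≤ b) ∨
    (¬ tω ≤ b ∧ a ≤ b ∧ ∀ n, τ n ≤ b → τ n ≤ a) ∨ ((tω ≤ a ∧ a ∈ R0.carrier) ∧ ¬ tω ≤ b)
  let ord : PartialOrder (Nd N) :=
    { le := fun a b => le a.val b.val
      le_refl := by
        intro a
        by_cases h : tω ≤ a.val
        · exact Or.inl ⟨h, le_rfl⟩
        · exact Or.inr (Or.inl ⟨h, le_rfl, fun n hn => hn⟩)
      le_trans := by
        rintro a b c (⟨h1, h2⟩ | ⟨h1, h2, h3⟩ | ⟨⟨h1, h2⟩, h3⟩) (⟨g1, g2⟩ | ⟨g1, g2, g3⟩ | ⟨⟨g1, g2⟩, g3⟩)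
        · exact Or.inl ⟨h1, h2.trans g2⟩
        · exact absurd ((h1.trans h2).trans g2) g1
        · exact Or.inr (Or.inr ⟨⟨h1, R0.down _ g2 _ h2⟩, g3⟩)
        · exact absurd g1 h1
        · exact Or.inr (Or.inl ⟨g1, h2.trans g2, fun n hn => h3 n (g3 n hn)⟩)
        · exact absurd g1 h1
        · exact absurd g1 h3
        · exact Or.inr (Or.inr ⟨⟨h1, h2⟩, g1⟩)
        · exact absurd g1 h3
      le_antisymm := by
        rintro a b (⟨h1, h2⟩ | ⟨h1, h2, h3⟩ | ⟨⟨h1, h2⟩, h3⟩) (⟨g1, g2⟩ | ⟨g1, g2, g3⟩ | ⟨⟨g1, g2⟩, g3⟩)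
        · exact Nd.ext' (le_antisymm h2 g2)
        · exact absurd h1 g1
        · exact absurd h1 g3
        · exact absurd g1 h1
        · exact Nd.ext' (le_antisymm h2 g2)
        · exact absurd g1 h1
        · exact absurd g1 h3
        · exact absurd h1 g1
        · exact absurd g1 h3 }
  have le_def : ∀ a b : Nd N, (@LE.le (Nd N) ord.toLE a b) ↔ le a.val b.val := fun a b => Iff.rfl
  -- the membership predicate
  let ph : Ray T → T → Prop := fun R u => (tω ∈ R.carrier ∧ tω ≤ u ∧ u ∈ R.carrier) ∨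
    (tω ∉ R.carrier ∧ ((tω ≤ u ∧ u ∈ R0.carrier) ∨
      (u ∈ R.carrier ∧ ∀ n, τ n ∈ R.carrier → τ n ≤ u)))
  have hnω : ∀ (R : Ray T), tω ∉ R.carrier → ∀ u ∈ R.carrier, ¬ tω ≤ u := fun R h u hu h2 =>
    h (R.down u hu _ h2)
  let φ : {R : Ray T | (t ∈ R.carrier ∧ ∀ s ∈ S, s ∉ R.carrier) ∧ R ≠ R0} → @Ray (Nd N) ord :=
    fun R => @Ray.mk (Nd N) ord {u : Nd N | ph R.1 u.val}
      (by
        by_cases h : tω ∈ R.1.carrier
        · exact ⟨⟨tω, htωN⟩, Or.inl ⟨h, le_rfl, h⟩⟩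
        · exact ⟨⟨tω, htωN⟩, Or.inr ⟨h, Or.inl ⟨le_rfl, htω⟩⟩⟩)
      (by
        rintro a ha b hb -
        rcases ha with ⟨h, ha1, ha2⟩ | ⟨h, ha⟩
        · rcases hb with ⟨-, hb1, hb2⟩ | ⟨h', -⟩
          · rcases R.1.total ha2 hb2 with h3 | h3
            · exact Or.inl (Or.inl ⟨ha1, h3⟩)
            · exact Or.inr (Or.inl ⟨hb1, h3⟩)
          · exact absurd h h'
        · rcases hb with ⟨h', -⟩ | ⟨-, hb⟩
          · exact absurd h' h
          · rcases ha with ⟨ha1, ha2⟩ | ⟨ha1, ha2⟩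
            · rcases hb with ⟨hb1, hb2⟩ | ⟨hb1, hb2⟩
              · rcases R0.total ha2 hb2 with h3 | h3
                · exact Or.inl (Or.inl ⟨ha1, h3⟩)
                · exact Or.inr (Or.inl ⟨hb1, h3⟩)
              · exact Or.inl (Or.inr (Or.inr ⟨⟨ha1, ha2⟩, hnω R.1 h _ hb1⟩))
            · rcases hb with ⟨hb1, hb2⟩ | ⟨hb1, hb2⟩
              · exact Or.inr (Or.inr (Or.inr ⟨⟨hb1, hb2⟩, hnω R.1 h _ ha1⟩))
              · rcases R.1.total ha1 hb1 with h3 | h3
                · exact Or.inl (Or.inr (Or.inl ⟨hnω R.1 h _ hb1, h3, fun n hn =>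
                    ha2 n (R.1.down _ hb1 _ hn)⟩))
                · exact Or.inr (Or.inr (Or.inl ⟨hnω R.1 h _ ha1, h3, fun n hn =>
                    hb2 n (R.1.down _ ha1 _ hn)⟩)))
      (by
        rintro a ha b (⟨h1, h2⟩ | ⟨h1, h2, h3⟩ | ⟨⟨h1, h2⟩, h3⟩)
        · rcases ha with ⟨h, ha1, ha2⟩ | ⟨h, ⟨ha1, ha2⟩ | ⟨ha1, ha2⟩⟩
          · exact Or.inl ⟨h, h1, R.1.down _ ha2 _ h2⟩
          · exact Or.inr ⟨h, Or.inl ⟨h1, R0.down _ ha2 _ h2⟩⟩
          · exact absurd (h1.trans h2) (hnω R.1 h _ ha1)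
        · rcases ha with ⟨h, ha1, ha2⟩ | ⟨h, ⟨ha1, ha2⟩ | ⟨ha1, ha2⟩⟩
          · exact absurd ha1 h1
          · exact absurd ha1 h1
          · exact Or.inr ⟨h, Or.inr ⟨R.1.down _ ha1 _ h2, fun n hn => h3 n (ha2 n hn)⟩⟩
        · rcases ha with ⟨h, ha1, ha2⟩ | ⟨h, ⟨ha1, ha2⟩ | ⟨ha1, ha2⟩⟩
          · exact absurd ha1 h3
          · exact absurd ha1 h3
          · exact Or.inr ⟨h, Or.inl ⟨h1, h2⟩⟩)
      (by
        rintro a (⟨h, ha1, ha2⟩ | ⟨h, ⟨ha1, ha2⟩ | ⟨ha1, ha2⟩⟩)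
        · obtain ⟨b, hb, hab⟩ := R.1.noMax _ ha2
          refine ⟨⟨b, hNR R.1 R.2.1 b hb (a.mem.1.trans hab.le)⟩,
            Or.inl ⟨h, ha1.trans hab.le, hb⟩, ?_⟩
          refine @lt_of_le_of_ne _ ord _ _ (Or.inl ⟨ha1, hab.le⟩) ?_
          intro h2
          exact hab.ne (congrArg Nd.val h2)
        · obtain ⟨b, hb, hab⟩ := R0.noMax _ ha2
          refine ⟨⟨b, hN0 b hb (a.mem.1.trans hab.le)⟩,
            Or.inr ⟨h, Or.inl ⟨ha1.trans hab.le, hb⟩⟩, ?_⟩
          refine @lt_of_le_of_ne _ ord _ _ (Or.inl ⟨ha1, hab.le⟩) ?_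
          intro h2
          exact hab.ne (congrArg Nd.val h2)
        · obtain ⟨b, hb, hab⟩ := R.1.noMax _ ha1
          refine ⟨⟨b, hNR R.1 R.2.1 b hb (a.mem.1.trans hab.le)⟩,
            Or.inr ⟨h, Or.inr ⟨hb, fun n hn => (ha2 n hn).trans hab.le⟩⟩, ?_⟩
          refine @lt_of_le_of_ne _ ord _ _ (Or.inr (Or.inl ⟨hnω R.1 h _ hb, hab.le, fun n hn =>
            ha2 n (R.1.down _ hb _ hn)⟩)) ?_
          intro h2
          exact hab.ne (congrArg Nd.val h2))
  have φ_mem : ∀ R u, u ∈ (φ R).carrier ↔ ph R.1 u.val := fun R u => Iff.rfl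
  -- rays with empty core
  have core : ∀ R : Ray T, t ∈ R.carrier →
      (∀ u ∈ R.carrier, ¬ ∀ n, τ n ∈ R.carrier → τ n ≤ u) → R.carrier = {u | ∃ n, u ≤ τ n} := by
    intro R htR hcore
    have h1 : ∀ n, τ n ∈ R.carrier := by
      intro n
      induction n with
      | zero => rw [hτ0]; exact htR
      | succ n ih =>
        have h2 := hcore (τ n) ih
        push Not at h2
        obtain ⟨m, hm, hmn⟩ := h2
        have h3 : n < m := by
          by_contra h4
          exact hmn (hτm.monotone (not_lt.1 h4))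
        exact R.down _ hm _ (hτm.monotone h3)
    apply Subset.antisymm
    · intro u hu
      by_contra hc
      refine hcore u hu fun n _ => ?_
      rcases R.total (h1 n) hu with h2 | h2
      · exact h2
      · exact absurd ⟨n, h2⟩ hc
    · rintro u ⟨n, hn⟩
      exact R.down _ (h1 n) _ hn
  refine ⟨Nd N, ord, ⟨⟨⟨tω, htωN⟩, ?_⟩, ?_⟩, φ, ?_, ?_, ?_⟩
  · intro v
    by_cases h : tω ≤ v.val
    · exact Or.inl ⟨le_rfl, h⟩
    · exact Or.inr (Or.inr ⟨⟨le_rfl, htω⟩, h⟩)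
  · intro v A hA hne
    by_cases hv : tω ≤ v.val
    · have hA' : ∀ a ∈ A, tω ≤ a.val ∧ a.val ≤ v.val := by
        intro a ha
        rcases hA ha with h | ⟨h1, -, -⟩ | ⟨-, h3⟩
        · exact h
        · exact absurd hv h1
        · exact absurd hv h3
      obtain ⟨m, ⟨m', hm', rfl⟩, hm2⟩ := hT.2 v.val (Nd.val '' A) (by
        rintro _ ⟨a, ha, rfl⟩
        exact (hA' a ha).2) (hne.image _)
      exact ⟨m', hm', fun s hs => Or.inl ⟨(hA' m' hm').1, hm2 s.val ⟨s, hs, rfl⟩⟩⟩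
    · by_cases hC : ∃ a ∈ A, tω ≤ a.val
      · obtain ⟨a, ha, haω⟩ := hC
        have hAC : ∀ b ∈ A, tω ≤ b.val → b.val ∈ R0.carrier := by
          intro b hb hbω
          rcases hA hb with ⟨h1, h2⟩ | ⟨h1, h2, -⟩ | ⟨h2, h3⟩
          · exact absurd (h1.trans h2) hv
          · exact absurd (hbω.trans h2) h1
          · exact h2.2
        obtain ⟨m, ⟨m', ⟨hm'A, hm'ω⟩, rfl⟩, hmm⟩ := hT.wf.has_min
          (Nd.val '' {b | b ∈ A ∧ tω ≤ b.val}) ⟨_, a, ⟨ha, haω⟩, rfl⟩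
        refine ⟨m', hm'A, fun s hs => ?_⟩
        by_cases hsω : tω ≤ s.val
        · left
          refine ⟨hm'ω, ?_⟩
          rcases R0.total (hAC m' hm'A hm'ω) (hAC s hs hsω) with h | h
          · exact h
          · rcases h.lt_or_eq with h' | h'
            · exact absurd h' (hmm _ ⟨s, ⟨hs, hsω⟩, rfl⟩)
            · exact h'.ge
        · exact Or.inr (Or.inr ⟨⟨hm'ω, hAC m' hm'A hm'ω⟩, hsω⟩)
      · push Not at hC
        have hA' : ∀ a ∈ A, a.val ≤ v.val ∧ ∀ n, τ n ≤ v.val → τ n ≤ a.val := by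
          intro a ha
          rcases hA ha with ⟨h1, h2⟩ | ⟨h1, h2, h3⟩ | ⟨h2, h3⟩
          · exact absurd h1 (hC a ha)
          · exact ⟨h2, h3⟩
          · exact absurd h2.1 (hC a ha)
        obtain ⟨m, ⟨m', hm', rfl⟩, hm2⟩ := hT.2 v.val (Nd.val '' A) (by
          rintro _ ⟨a, ha, rfl⟩
          exact (hA' a ha).1) (hne.image _)
        refine ⟨m', hm', fun s hs => Or.inr (Or.inl ⟨hC s hs, hm2 s.val ⟨s, hs, rfl⟩, ?_⟩)⟩
        intro n hn
        exact (hA' m' hm').2 n (hn.trans (hA' s hs).1)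
  · refine @continuous_of (Nd N) ord _ _ _ fun u => ?_
    have hcl : ∀ K : Set (Ray T), IsClopen K →
        (∀ R : {R : Ray T | (t ∈ R.carrier ∧ ∀ s ∈ S, s ∉ R.carrier) ∧ R ≠ R0},
          (ph R.1 u.val ↔ R.1 ∈ K)) → IsClopen {R | u ∈ (φ R).carrier} := by
      intro K hK h
      have : {R | u ∈ (φ R).carrier} = Subtype.val ⁻¹' K := by
        ext R
        exact h R
      rw [this]
      exact hK.preimage continuous_subtype_val
    by_cases hu : tω ≤ u.val
    · by_cases hu0 : u.val ∈ R0.carrier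
      · refine hcl ({R | tω ∉ R.carrier} ∪ {R | u.val ∈ R.carrier})
          ((clopen_notMem tω).union (clopen_mem u.val)) fun R => ?_
        constructor
        · rintro (⟨h, h1, h2⟩ | ⟨h, h1⟩)
          · exact Or.inr h2
          · exact Or.inl h
        · rintro (h | h)
          · exact Or.inr ⟨h, Or.inl ⟨hu, hu0⟩⟩
          · exact Or.inl ⟨R.1.down _ h _ hu, hu, h⟩
      · refine hcl {R | u.val ∈ R.carrier} (clopen_mem u.val) fun R => ?_
        constructor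
        · rintro (⟨h, h1, h2⟩ | ⟨h, ⟨h1, h2⟩ | ⟨h1, h2⟩⟩)
          · exact h2
          · exact absurd h2 hu0
          · exact h1
        · intro h
          exact Or.inl ⟨R.1.down _ h _ hu, hu, h⟩
    · by_cases hall : ∀ n, τ n ≤ u.val
      · refine hcl ({R | tω ∉ R.carrier} ∩ {R | u.val ∈ R.carrier})
          ((clopen_notMem tω).inter (clopen_mem u.val)) fun R => ?_
        constructor
        · rintro (⟨h, h1, h2⟩ | ⟨h, ⟨h1, h2⟩ | ⟨h1, h2⟩⟩)
          · exact absurd h1 hu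
          · exact absurd h1 hu
          · exact ⟨h, h1⟩
        · rintro ⟨h, h1⟩
          exact Or.inr ⟨h, Or.inr ⟨h1, fun n _ => hall n⟩⟩
      · push Not at hall
        obtain ⟨n0, hn0, hmin⟩ : ∃ n0, ¬ τ n0 ≤ u.val ∧ ∀ n < n0, τ n ≤ u.val :=
          ⟨Nat.find hall, Nat.find_spec hall, fun n hn => not_not.1 (Nat.find_min hall hn)⟩
        refine hcl ({R | tω ∉ R.carrier} ∩ ({R | u.val ∈ R.carrier} ∩ {R | τ n0 ∉ R.carrier}))
          ((clopen_notMem tω).inter ((clopen_mem u.val).inter (clopen_notMem _))) fun R => ?_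
        constructor
        · rintro (⟨h, h1, h2⟩ | ⟨h, ⟨h1, h2⟩ | ⟨h1, h2⟩⟩)
          · exact absurd h1 hu
          · exact absurd h1 hu
          · exact ⟨h, h1, fun h3 => hn0 (h2 n0 h3)⟩
        · rintro ⟨h, h1, h2⟩
          refine Or.inr ⟨h, Or.inr ⟨h1, fun n hn => ?_⟩⟩
          rcases lt_or_ge n n0 with h3 | h3
          · exact hmin n h3
          · exact absurd (R.1.down _ hn _ (hτm.monotone h3)) h2
  · -- injectivity
    have hmix : ∀ R1 R2 : {R : Ray T | (t ∈ R.carrier ∧ ∀ s ∈ S, s ∉ R.carrier) ∧ R ≠ R0},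
        (φ R1).carrier = (φ R2).carrier → tω ∈ R1.1.carrier → tω ∈ R2.1.carrier := by
      intro R1 R2 h12 h1
      by_contra h2
      apply R1.2.2
      apply Ray.ext'
      apply Subset.antisymm
      · intro u hu
        rcases R1.1.total hu h1 with h3 | h3
        · exact R0.down _ htω _ h3
        · have huN : u ∈ N := hNR R1.1 R1.2.1 u hu (htltω.le.trans h3)
          have h4 : (⟨u, huN⟩ : Nd N) ∈ (φ R1).carrier := Or.inl ⟨h1, h3, hu⟩
          rw [h12] at h4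
          rcases h4 with ⟨h5, -⟩ | ⟨-, ⟨-, h5⟩ | ⟨h5, -⟩⟩
          · exact absurd h5 h2
          · exact h5
          · exact absurd h3 (hnω R2.1 h2 u h5)
      · intro u hu
        rcases R0.total hu htω with h3 | h3
        · exact R1.1.down _ h1 _ h3
        · have huN : u ∈ N := hN0 u hu (htltω.le.trans h3)
          have h4 : (⟨u, huN⟩ : Nd N) ∈ (φ R2).carrier := Or.inr ⟨h2, Or.inl ⟨h3, hu⟩⟩
          rw [← h12] at h4
          rcases h4 with ⟨-, -, h5⟩ | ⟨h5, -⟩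
          · exact h5
          · exact absurd h1 h5
    have hsub : ∀ R1 R2 : {R : Ray T | (t ∈ R.carrier ∧ ∀ s ∈ S, s ∉ R.carrier) ∧ R ≠ R0},
        (φ R1).carrier = (φ R2).carrier → R1.1.carrier ⊆ R2.1.carrier := by
      intro R1 R2 h12 u hu
      by_cases h1 : tω ∈ R1.1.carrier
      · have h2 := hmix R1 R2 h12 h1
        rcases R1.1.total hu h1 with h3 | h3
        · exact R2.1.down _ h2 _ h3
        · have huN : u ∈ N := hNR R1.1 R1.2.1 u hu (htltω.le.trans h3)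
          have h4 : (⟨u, huN⟩ : Nd N) ∈ (φ R1).carrier := Or.inl ⟨h1, h3, hu⟩
          rw [h12] at h4
          rcases h4 with ⟨-, -, h5⟩ | ⟨h5, -⟩
          · exact h5
          · exact absurd h2 h5
      · have h2 : tω ∉ R2.1.carrier := fun h => h1 (hmix R2 R1 h12.symm h)
        by_cases hc : ∃ v ∈ R1.1.carrier, ∀ n, τ n ∈ R1.1.carrier → τ n ≤ v
        · obtain ⟨v, hv, hvc⟩ := hc
          have htv : t ≤ v := hvc 0 R1.2.1.1
          have key : ∀ w ∈ R1.1.carrier, v ≤ w → w ∈ R2.1.carrier := by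
            intro w hw hvw
            have hwN : w ∈ N := hNR R1.1 R1.2.1 w hw (htv.trans hvw)
            have h4 : (⟨w, hwN⟩ : Nd N) ∈ (φ R1).carrier :=
              Or.inr ⟨h1, Or.inr ⟨hw, fun n hn => (hvc n hn).trans hvw⟩⟩
            rw [h12] at h4
            rcases h4 with ⟨h5, -⟩ | ⟨-, ⟨h5, -⟩ | ⟨h5, -⟩⟩
            · exact absurd h5 h2
            · exact absurd h5 (hnω R1.1 h1 w hw)
            · exact h5
          rcases R1.1.total hu hv with h3 | h3
          · exact R2.1.down _ (key v hv le_rfl) _ h3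
          · exact key u hu h3
        · push Not at hc
          have hp1 := core R1.1 R1.2.1.1 (fun w hw h => by
            obtain ⟨n, hn1, hn2⟩ := hc w hw
            exact hn2 (h n hn1))
          have hp2 := core R2.1 R2.2.1.1 (fun w hw h => by
            have htw : t ≤ w := h 0 R2.2.1.1
            have hwN : w ∈ N := hNR R2.1 R2.2.1 w hw htw
            have h4 : (⟨w, hwN⟩ : Nd N) ∈ (φ R2).carrier := Or.inr ⟨h2, Or.inr ⟨hw, h⟩⟩
            rw [← h12] at h4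
            rcases h4 with ⟨h5, -⟩ | ⟨-, ⟨h5, -⟩ | ⟨h5, h6⟩⟩
            · exact absurd h5 h1
            · exact absurd h5 (hnω R2.1 h2 w hw)
            · obtain ⟨n, hn1, hn2⟩ := hc w h5
              exact hn2 (h6 n hn1))
          rw [hp2, ← hp1]
          exact hu
    intro R1 R2 h12
    have h3 : (φ R1).carrier = (φ R2).carrier := by rw [h12]
    exact Subtype.ext (Ray.ext' (Subset.antisymm (hsub R1 R2 h3) (hsub R2 R1 h3.symm)))
  · -- surjectivity
    intro Q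
    have hdown : ∀ a ∈ Q.carrier, ∀ b : Nd N, le b.val a.val → b ∈ Q.carrier := Q.down
    have htot : ∀ a ∈ Q.carrier, ∀ b ∈ Q.carrier, le a.val b.val ∨ le b.val a.val := by
      intro a ha b hb
      exact @Ray.total _ ord Q a b ha hb
    have hup : ∀ a ∈ Q.carrier, ∃ b ∈ Q.carrier, le a.val b.val ∧ a.val ≠ b.val := by
      intro a ha
      obtain ⟨b, hb, hab⟩ := Q.noMax a ha
      refine ⟨b, hb, @le_of_lt _ ord.toPreorder _ _ hab, fun h => ?_⟩
      exact @ne_of_lt _ ord.toPreorder _ _ hab (Nd.ext' h)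
    have hQext : ∀ R : {R : Ray T | (t ∈ R.carrier ∧ ∀ s ∈ S, s ∉ R.carrier) ∧ R ≠ R0},
        (∀ u : Nd N, ph R.1 u.val ↔ u ∈ Q.carrier) → φ R = Q := by
      intro R h
      apply @Ray.ext' _ ord
      ext u
      exact h u
    by_cases hA : ∀ v ∈ Q.carrier, tω ≤ v.val
    · let R : Ray T :=
        { carrier := {u | ∃ v ∈ Q.carrier, u ≤ v.val}
          nonempty := by
            obtain ⟨v, hv⟩ := Q.nonempty
            exact ⟨v.val, v, hv, le_rfl⟩
          chain := by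
            rintro a ⟨v, hv, hav⟩ b ⟨w, hw, hbw⟩ _
            rcases htot v hv w hw with (⟨-, h⟩ | ⟨-, h, -⟩ | ⟨-, h⟩) | (⟨-, h⟩ | ⟨-, h, -⟩ | ⟨-, h⟩)
            · exact hT.comp (hav.trans h) hbw
            · exact hT.comp (hav.trans h) hbw
            · exact absurd (hA w hw) h
            · exact hT.comp hav (hbw.trans h)
            · exact hT.comp hav (hbw.trans h)
            · exact absurd (hA v hv) h
          down := by
            rintro a ⟨v, hv, hav⟩ b hb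
            exact ⟨v, hv, hb.trans hav⟩
          noMax := by
            rintro a ⟨v, hv, hav⟩
            obtain ⟨w, hw, hvw, hne⟩ := hup v hv
            have h : v.val ≤ w.val := by
              rcases hvw with ⟨-, h⟩ | ⟨-, h, -⟩ | ⟨-, h⟩
              · exact h
              · exact h
              · exact absurd (hA w hw) h
            exact ⟨w.val, ⟨w, hw, le_rfl⟩, hav.trans_lt (lt_of_le_of_ne h hne)⟩ }
      have hRω : tω ∈ R.carrier := by
        obtain ⟨v, hv⟩ := Q.nonempty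
        exact ⟨v, hv, hA v hv⟩
      have hRQ : ∀ u : Nd N, tω ≤ u.val → u.val ∈ R.carrier → u ∈ Q.carrier := by
        rintro u hu ⟨v, hv, huv⟩
        exact hdown v hv u (Or.inl ⟨hu, huv⟩)
      by_cases hR : R = R0
      · -- the preimage is `p`
        let P : Ray T :=
          { carrier := {u | ∃ n, u ≤ τ n}
            nonempty := ⟨t, 0, hτ0.ge⟩
            chain := by
              rintro a ha b hb _
              exact x.total (hpx a ha) (hpx b hb)
            down := by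
              rintro a ⟨n, hn⟩ b hb
              exact ⟨n, hb.trans hn⟩
            noMax := by
              rintro a ⟨n, hn⟩
              exact ⟨τ (n+1), ⟨n+1, le_rfl⟩, hn.trans_lt (hτm (Nat.lt_succ_self n))⟩ }
        have hPω : tω ∉ P.carrier := htωp
        refine ⟨⟨P, ⟨⟨0, hτ0.ge⟩, ?_⟩, ?_⟩, hQext _ ?_⟩
        · intro s hs hsP
          have h1 := hS s hs s (hx (hpx s hsP))
          exact lt_irrefl _ h1
        · intro h
          exact hPω (by rw [h]; exact htω)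
        · intro u
          constructor
          · rintro (⟨h, -⟩ | ⟨-, ⟨h1, h2⟩ | ⟨⟨m, hm⟩, h2⟩⟩)
            · exact absurd h hPω
            · exact hRQ u h1 (by rw [hR]; exact h2)
            · have h3 := h2 (m+1) ⟨m+1, le_rfl⟩
              exact absurd (hτm (Nat.lt_succ_self m)) (not_lt_of_ge (h3.trans hm))
          · intro hu
            refine Or.inr ⟨hPω, Or.inl ⟨hA u hu, ?_⟩⟩
            rw [← hR]
            exact ⟨u, hu, le_rfl⟩
      · refine ⟨⟨R, ⟨R.down _ hRω _ htltω.le, ?_⟩, hR⟩, hQext _ ?_⟩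
        · rintro s hs ⟨v, hv, hsv⟩
          exact v.mem.2 s hs hsv
        · intro u
          constructor
          · rintro (⟨-, h1, h2⟩ | ⟨h, -⟩)
            · exact hRQ u h1 h2
            · exact absurd hRω h
          · intro hu
            exact Or.inl ⟨hRω, hA u hu, u, hu, le_rfl⟩
    · push Not at hA
      obtain ⟨v0, hv0, hv0ω⟩ := hA
      have hcmp : ∀ a ∈ Q.carrier, ∀ b ∈ Q.carrier, ¬ tω ≤ a.val → ¬ tω ≤ b.val →
          (a.val ≤ b.val ∧ ∀ n, τ n ≤ b.val → τ n ≤ a.val) ∨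
          (b.val ≤ a.val ∧ ∀ n, τ n ≤ a.val → τ n ≤ b.val) := by
        intro a ha b hb ha' hb'
        rcases htot a ha b hb with (⟨h1, -⟩ | ⟨-, h⟩ | ⟨⟨h1, -⟩, -⟩) | (⟨h1, -⟩ | ⟨-, h⟩ | ⟨⟨h1, -⟩, -⟩)
        · exact absurd h1 ha'
        · exact Or.inl h
        · exact absurd h1 ha'
        · exact absurd h1 hb'
        · exact Or.inr h
        · exact absurd h1 hb'
      let R : Ray T :=
        { carrier := {u | ∃ v ∈ Q.carrier, ¬ tω ≤ v.val ∧ u ≤ v.val}
          nonempty := ⟨v0.val, v0, hv0, hv0ω, le_rfl⟩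
          chain := by
            rintro a ⟨v, hv, hvω, hav⟩ b ⟨w, hw, hwω, hbw⟩ _
            rcases hcmp v hv w hw hvω hwω with ⟨h, -⟩ | ⟨h, -⟩
            · exact hT.comp (hav.trans h) hbw
            · exact hT.comp hav (hbw.trans h)
          down := by
            rintro a ⟨v, hv, hvω, hav⟩ b hb
            exact ⟨v, hv, hvω, hb.trans hav⟩
          noMax := by
            rintro a ⟨v, hv, hvω, hav⟩
            obtain ⟨w, hw, hvw, hne⟩ := hup v hv
            rcases hvw with ⟨h, -⟩ | ⟨h1, h2, -⟩ | ⟨⟨h, -⟩, -⟩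
            · exact absurd h hvω
            · exact ⟨w.val, ⟨w, hw, h1, le_rfl⟩, hav.trans_lt (lt_of_le_of_ne h2 hne)⟩
            · exact absurd h hvω }
      have hRω : tω ∉ R.carrier := by
        rintro ⟨v, -, h1, h2⟩
        exact h1 h2
      refine ⟨⟨R, ⟨⟨v0, hv0, hv0ω, v0.mem.1⟩, ?_⟩, ?_⟩, hQext _ ?_⟩
      · rintro s hs ⟨v, hv, -, hsv⟩
        exact v.mem.2 s hs hsv
      · intro h
        exact hRω (by rw [h]; exact htω)
      · intro u
        constructor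
        · rintro (⟨h, -⟩ | ⟨-, ⟨h1, h2⟩ | ⟨⟨v, hv, hvω, huv⟩, h2⟩⟩)
          · exact absurd h hRω
          · exact hdown v0 hv0 u (Or.inr (Or.inr ⟨⟨h1, h2⟩, hv0ω⟩))
          · exact hdown v hv u (Or.inr (Or.inl ⟨hvω, huv, fun n hn => h2 n ⟨v, hv, hvω, hn⟩⟩))
        · intro hu
          refine Or.inr ⟨hRω, ?_⟩
          by_cases huω : tω ≤ u.val
          · left
            refine ⟨huω, ?_⟩
            rcases htot u hu v0 hv0 with (⟨h1, h2⟩ | ⟨-, h2, -⟩ | ⟨h1, -⟩) | (⟨h1, -⟩ | ⟨h1, -⟩ | ⟨h1, -⟩)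
            · exact absurd (h1.trans h2) hv0ω
            · exact absurd (huω.trans h2) hv0ω
            · exact h1.2
            · exact absurd h1 hv0ω
            · exact absurd huω h1
            · exact absurd h1.1 hv0ω
          · right
            refine ⟨⟨u, hu, huω, le_rfl⟩, ?_⟩
            rintro n ⟨v, hv, hvω, hnv⟩
            rcases hcmp u hu v hv huω hvω with ⟨-, h⟩ | ⟨h, -⟩
            · exact h n hnv
            · exact hnv.trans h

end X198RS
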